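import Pool.Agent.W2helper93.YZ.Main

/-!
# The fibration of a flat family
-/

set_option autoImplicit false
set_option linter.unusedSectionVars false

open Topology MeasureTheory Module

namespace Pool.Agent.W2helper93.YZ

variable {V : Type} [NormedAddCommGroup V] [InnerProductSpace ℂ V]
  {Γ : Type} [Group Γ] {n : ℕ} {S : Type}

attribute [local instance] InnerProductSpace.complexToReal

theorem exists_basis [FiniteDimensional ℂ V] (F : MaxFamily n S Γ V) (s : S) :
    ∃ w : Basis (Fin n) ℝ (WW F s),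
      (∀ l : Fin n → ℤ, (∑ i, (l i : ℝ) • w i) ∈ LL F s) ∧
      (∀ x ∈ LL F s, ∃ l : Fin n → ℤ, x = ∑ i, (l i : ℝ) • w i) := by
  have : FiniteDimensional ℝ V := FiniteDimensional.complexToReal V
  let L : Submodule ℤ (WW F s) := AddSubgroup.toIntSubmodule (LL F s)
  have : DiscreteTopology L := discrete_LL (F := F) (s := s)
  have : IsZLattice ℝ L := ⟨by
    rw [eq_top_iff]
    refine Submodule.span_span_coe_preimage.symm.le.trans (Submodule.span_mono ?_)
    intro x hx
    exact gens_mem hx⟩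
  have hfr : finrank ℤ L = n := (ZLattice.rank ℝ L).trans (F.max s)
  have : Module.Finite ℤ L := ZLattice.module_finite ℝ L
  have : Module.Free ℤ L := ZLattice.module_free ℝ L
  let b : Basis (Fin n) ℤ L := Module.finBasisOfFinrankEq ℤ L hfr
  have hsum : ∀ l : Fin n → ℤ, (∑ i, (l i : ℝ) • b.ofZLatticeBasis ℝ L i) =
      ((∑ i, l i • b i : L) : WW F s) := by
    intro l
    rw [AddSubmonoidClass.coe_finsetSum]
    refine Finset.sum_congr rfl fun i _ => ?_
    rw [Basis.ofZLatticeBasis_apply, Submodule.coe_smul, Int.cast_smul_eq_zsmul]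
  refine ⟨b.ofZLatticeBasis ℝ L, ?_, ?_⟩
  · intro l
    rw [hsum]
    exact (∑ i, l i • b i : L).2
  · intro x hx
    refine ⟨fun i => b.repr ⟨x, hx⟩ i, ?_⟩
    rw [hsum, b.sum_repr]


section

variable [FiniteDimensional ℂ V] (F : MaxFamily n S Γ V) (s : S)

theorem coW_of_basis {w : Basis (Fin n) ℝ (WW F s)}
    (hw : ∀ l : Fin n → ℤ, (∑ i, (l i : ℝ) • w i) ∈ LL F s) :
    ∃ C : ℝ, ∀ u ∈ WW F s, ∃ (γ : Γ) (l : V), l ∈ WW F s ∧ (∀ v, F.ρ s γ v = v - l) ∧
      ‖u - l‖ ≤ C := by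
  refine ⟨∑ i, ‖(w i : V)‖, fun u hu => ?_⟩
  set c := fun i => w.repr ⟨u, hu⟩ i with hc
  obtain ⟨γ, hγ⟩ := hw (fun i => -⌊c i⌋)
  refine ⟨γ, ((∑ i, (⌊c i⌋ : ℝ) • w i : WW F s) : V), Submodule.coe_mem _, fun v => ?_, ?_⟩
  · rw [hγ, sub_eq_add_neg, ← Submodule.coe_neg, ← Finset.sum_neg_distrib]
    congr 2
    refine Finset.sum_congr rfl fun i _ => ?_
    rw [Int.cast_neg, neg_smul]
  · have h1 : u = ((∑ i, c i • w i : WW F s) : V) := by
      rw [hc, w.sum_repr]
    conv_lhs => rw [h1]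
    rw [← Submodule.coe_sub, ← Finset.sum_sub_distrib, Submodule.coe_sum]
    refine (norm_sum_le _ _).trans (Finset.sum_le_sum fun i _ => ?_)
    rw [← sub_smul, Submodule.coe_smul, norm_smul]
    refine mul_le_of_le_one_left (norm_nonneg _) ?_
    rw [Int.self_sub_floor, Real.norm_eq_abs, abs_of_nonneg (Int.fract_nonneg _)]
    exact (Int.fract_lt_one _).le

/-- the action -/
noncomputable def ac (F : MaxFamily n S Γ V) (s : S) (γ : Γ) (v : V) : V := F.ρ s γ v

theorem act {w : Basis (Fin n) ℝ (WW F s)}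
    (hw : ∀ l : Fin n → ℤ, (∑ i, (l i : ℝ) • w i) ∈ LL F s) :
    Act (WW F s) (ac F s) (Al F s) where
  one := one_apply'
  mul := mul_apply'
  sub γ v w := lin_sub (F.ρ s γ) v w
  norm γ x := (lin (F.ρ s γ)).norm_map x
  inv γ _ hx := inv_WW γ hx
  proper := (F.flat s).proper
  coW := coW_of_basis F s hw

theorem I_orth {u : V} (hu : u ∈ WW F s) : Complex.I • u ∈ (WW F s)ᗮ := by
  intro x hx
  have h1 : inner ℝ x (Complex.I • u) = (inner ℂ x (Complex.I • u)).re := rfl
  rw [h1, inner_smul_right, Complex.I_mul_re, neg_eq_zero]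
  exact lag hx hu

theorem eq_tr (h : Act (WW F s) (ac F s) (Al F s)) (γ : Γ)
    (hγ : ∀ v, P (WW F s) (F.ρ s γ v) = P (WW F s) v) :
    ∃ x ∈ LL F s, ∀ v, F.ρ s γ v = v + x := by
  have : FiniteDimensional ℝ V := FiniteDimensional.complexToReal V
  have h1 : ∀ x, P (WW F s) (Al F s γ x) = P (WW F s) x := by
    intro x
    rw [Al_apply, lin_eq, map_sub, hγ, hγ, map_zero, sub_zero]
  have h2 : ∀ x ∈ (WW F s)ᗮ, Al F s γ x = x := by
    intro x hx
    have h3 := P_A h γ x
    rw [h1, P_coe (WW F s) ⟨x, hx⟩] at h3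
    exact h3.symm
  have h3 : ∀ u ∈ WW F s, Al F s γ u = u := by
    intro u hu
    have h4 := h2 _ (I_orth F s hu)
    rw [Al_apply, map_smul] at h4
    exact smul_right_injective V Complex.I_ne_zero h4
  have h4 : ∀ v, Al F s γ v = v := by
    intro v
    have h5 : v = (v - (P (WW F s) v : V)) + (P (WW F s) v : V) := by abel
    rw [h5, map_add, h3 _ (sub_P _ v), h2 _ (P (WW F s) v).2]
  have h5 : ∀ v, F.ρ s γ v = v + F.ρ s γ 0 := by
    intro v
    have := h4 v
    rw [Al_apply, lin_eq, sub_eq_iff_eq_add] at this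
    exact this
  have h6 : F.ρ s γ 0 ∈ WW F s := by
    rw [← P_eq_zero, hγ, map_zero]
  exact ⟨⟨F.ρ s γ 0, h6⟩, ⟨γ, h5⟩, h5⟩

theorem lat {w : Basis (Fin n) ℝ (WW F s)}
    (hw : ∀ l : Fin n → ℤ, (∑ i, (l i : ℝ) • w i) ∈ LL F s)
    (hw' : ∀ x ∈ LL F s, ∃ l : Fin n → ℤ, x = ∑ i, (l i : ℝ) • w i) :
    Lat (WW F s) (ac F s) w where
  tr l := hw l
  only γ hγ := by
    obtain ⟨x, hx, h⟩ := eq_tr F s (act F s hw) γ hγ
    obtain ⟨l, rfl⟩ := hw' x hx
    exact ⟨l, h⟩

theorem isQuot : IsQuot (ac F s) (cover (F.ρ s)) where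
  quot := isQuotientMap_quotient_mk'
  iff _ _ := Quotient.eq

/-- the phase -/
theorem phase (e : OrthonormalBasis (Fin n) ℂ V) (w : Basis (Fin n) ℝ (WW F s))
    (x : Fin n → V) (hx : ∀ i, x i ∈ WW F s) :
    (Complex.exp (-((e.toBasis.det fun i => (w i : V)).arg * Complex.I)) *
      e.toBasis.det x).im = 0 := by
  set z := e.toBasis.det fun i => (w i : V) with hz
  let M : Matrix (Fin n) (Fin n) ℝ := Matrix.of fun i j => w.repr ⟨x j, hx j⟩ i
  have h1 : e.toBasis.toMatrix x =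
      (e.toBasis.toMatrix fun i => (w i : V)) * M.map (algebraMap ℝ ℂ) := by
    ext k j
    rw [Matrix.mul_apply, Basis.toMatrix_apply]
    have h2 : x j = ∑ i, (M i j : ℂ) • (w i : V) := by
      have h3 := congrArg Subtype.val (w.sum_repr ⟨x j, hx j⟩)
      rw [Submodule.coe_sum] at h3
      exact h3.symm
    rw [h2, map_sum, Finsupp.coe_finsetSum, Finset.sum_apply]
    refine Finset.sum_congr rfl fun i _ => ?_
    rw [map_smul, Finsupp.smul_apply, smul_eq_mul, mul_comm]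
    rfl
  have h2 : e.toBasis.det x = z * ((M.det : ℝ) : ℂ) := by
    rw [Basis.det_apply, h1, Matrix.det_mul, hz, Basis.det_apply]
    congr 1
    exact (RingHom.map_det (algebraMap ℝ ℂ) M).symm
  have h3 : Complex.exp (-(z.arg * Complex.I)) * z = ((‖z‖ : ℝ) : ℂ) := by
    calc Complex.exp (-(z.arg * Complex.I)) * z
        = Complex.exp (-(z.arg * Complex.I)) * (‖z‖ * Complex.exp (z.arg * Complex.I)) := by
          rw [Complex.norm_mul_exp_arg_mul_I]
      _ = ‖z‖ * Complex.exp (-(z.arg * Complex.I) + z.arg * Complex.I) := by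
          rw [Complex.exp_add]
          ring
      _ = ((‖z‖ : ℝ) : ℂ) := by
          rw [neg_add_cancel, Complex.exp_zero, mul_one]
  rw [h2, ← mul_assoc, h3, ← Complex.ofReal_mul, Complex.ofReal_im]

theorem lag_ker {L : V →L[ℝ] (WW F s)ᗮ} (hL : ∀ x, L x = 0 ↔ x ∈ WW F s) (x y : V)
    (hx : L x = 0) (hy : L y = 0) : om x y = 0 :=
  lag ((hL x).1 hx) ((hL y).1 hy)

theorem main (e : OrthonormalBasis (Fin n) ℂ V) :
    ∃ (N : Submodule ℝ V) (U : Set (Man (F.ρ s))) (B : Set N) (f : Man (F.ρ s) → N) (θ : ℝ),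
      finrank ℝ N = n ∧ IsSLagFibration e (F.ρ s) U B f θ ∧
      ∀ [MeasurableSpace V] [BorelSpace V] (μ : Measure V) [μ.IsAddHaarMeasure],
        μ {v | cover (F.ρ s) v ∉ U} = 0 := by
  have : FiniteDimensional ℝ V := FiniteDimensional.complexToReal V
  obtain ⟨w, hw, hw'⟩ := exists_basis F s
  have hA := act F s hw
  have hL := lat F s hw hw'
  have hπ := isQuot F s
  obtain ⟨b, hb⟩ : ∃ b : V, ∀ γ, q (WW F s) (ac F s) b γ = P (WW F s) b →
      ∀ v, P (WW F s) (ac F s γ v) = P (WW F s) v := by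
    borelize V
    exact exists_base hA
  refine ⟨(WW F s)ᗮ, cover (F.ρ s) '' Dir (WW F s) (ac F s) b, bas (WW F s) (ac F s) b,
    fib (WW F s) (ac F s) (cover (F.ρ s)) b, (e.toBasis.det fun i => (w i : V)).arg, ?_, ?_, ?_⟩
  · have h1 := (WW F s).finrank_add_finrank_orthogonal
    have h2 : finrank ℝ (WW F s) = n := F.max s
    have h3 : finrank ℝ V = 2 * n := by
      rw [finrank_real_of_complex, finrank_eq_card_basis e.toBasis, Fintype.card_fin]
    omega
  · exact {
      isOpen_U := isOpenMap_pi hA hπ _ (isOpen_Dir hA b)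
      isOpen_B := isOpen_bas hA
      image := image_eq hA hπ hb
      proper := fun K hK hKc => proper hA hπ hb hK hKc
      submersion := fun v hv => by
        obtain ⟨L, h1, h2, h3⟩ := submersion hA hπ hb hv
        exact ⟨L, h1, h2, lag_ker F s h3, fun x hx => phase F s e w x fun i => (h3 _).1 (hx i)⟩
      torus := fun y hy => torus hA hπ hb hL hy }
  · intro _ _ μ _
    refine measure_mono_null ?_ (null_compl μ hA b)
    intro v hv γ hγ
    exact hv ⟨ac F s γ v, hγ, ((hπ.iff v _).2 ⟨γ, rfl⟩).symm⟩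

end

end Pool.Agent.W2helper93.YZ
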