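import Mathlib

/-!
# Families of flat Calabi–Yau manifolds

Every compact Kähler manifold with a flat Calabi–Yau metric (equivalently, every Calabi–Yau manifold
with a finite étale covering by a complex torus) is a quotient `V / Γ` of a Hermitian vector space
`V` by a group `Γ` of affine unitary maps which acts freely and properly discontinuously with compact
quotient. The canonical bundle is trivial if and only if the linear parts of `Γ` have determinant
one; then the determinant is the holomorphic volume form `Ω`.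
-/

set_option autoImplicit false

open Topology Module

namespace Pool.Agent.W2helper93.YZ

variable {V : Type} [NormedAddCommGroup V] [InnerProductSpace ℂ V] {Γ : Type} [Group Γ]

/-- The flat Kähler form `ω`. -/
noncomputable def om (x y : V) : ℝ := (inner ℂ x y).im

/-- Two points of `V` are equivalent if they are in the same orbit of `Γ`. -/
def orb (ρ : Γ →* (V ≃ᵃⁱ[ℂ] V)) : Setoid V where
  r v w := ∃ γ, ρ γ v = w
  iseqv :=
    ⟨fun v => ⟨1, by rw [map_one]; rfl⟩,
      fun {v w} ⟨γ, h⟩ => ⟨γ⁻¹, by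
        rw [← h]
        change (ρ γ⁻¹ * ρ γ) v = v
        rw [← map_mul, inv_mul_cancel, map_one]
        rfl⟩,
      fun {u v w} ⟨γ, h⟩ ⟨δ, h'⟩ => ⟨δ * γ, by rw [map_mul, ← h', ← h]; rfl⟩⟩

/-- The manifold `V / Γ`. -/
def Man (ρ : Γ →* (V ≃ᵃⁱ[ℂ] V)) : Type := Quotient (orb ρ)

instance (ρ : Γ →* (V ≃ᵃⁱ[ℂ] V)) : TopologicalSpace (Man ρ) :=
  inferInstanceAs (TopologicalSpace (Quotient (orb ρ)))

/-- The universal covering `V → V / Γ`. -/
def cover (ρ : Γ →* (V ≃ᵃⁱ[ℂ] V)) (v : V) : Man ρ := Quotient.mk (orb ρ) v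

/-- `V / Γ` is a compact Calabi–Yau manifold: `Γ` acts freely and properly discontinuously, with
compact quotient, and the linear parts have determinant one. -/
structure IsFlatCY (ρ : Γ →* (V ≃ᵃⁱ[ℂ] V)) : Prop where
  free : ∀ γ, γ ≠ 1 → ∀ v, ρ γ v ≠ v
  proper : ∀ (v : V) (R : ℝ), {γ | ‖ρ γ v‖ ≤ R}.Finite
  cocompact : ∃ R : ℝ, ∀ v, ∃ γ, ‖ρ γ v‖ ≤ R
  det_one : ∀ γ, LinearMap.det ((ρ γ).linearIsometryEquiv.toLinearEquiv : V →ₗ[ℂ] V) = 1

/-- `f : U → B` is a special Lagrangian torus fibration of phase `θ` of the open subset `U` of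
`V / Γ` over the open subset `B` of the real vector space `N` of dimension `n`: `f` is proper and
surjective, on the universal covering it is locally an affine map with a surjective linear part `L`
(so `f` is a smooth submersion), the tangent spaces `ker L` of the fibres are Lagrangian for `ω`, the
form `Im (exp (- i θ) Ω)` vanishes on them, and the fibres are homeomorphic to the torus
`(ℝ / ℤ) ^ n`. Here `Ω` is the determinant with respect to the orthonormal basis `e`. -/
structure IsSLagFibration {n : ℕ} (e : OrthonormalBasis (Fin n) ℂ V) (ρ : Γ →* (V ≃ᵃⁱ[ℂ] V))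
    {N : Type} [NormedAddCommGroup N] [NormedSpace ℝ N] (U : Set (Man ρ)) (B : Set N)
    (f : Man ρ → N) (θ : ℝ) : Prop where
  isOpen_U : IsOpen U
  isOpen_B : IsOpen B
  image : f '' U = B
  proper : ∀ K ⊆ B, IsCompact K → IsCompact (U ∩ f ⁻¹' K)
  submersion : ∀ v, cover ρ v ∈ U → ∃ L : V →L[ℝ] N, Function.Surjective L ∧
    (∀ᶠ w in 𝓝 v, f (cover ρ w) = f (cover ρ v) + L (w - v)) ∧
    (∀ x y, L x = 0 → L y = 0 → om x y = 0) ∧
    ∀ x : Fin n → V, (∀ i, L (x i) = 0) →
      (Complex.exp (-(θ * Complex.I)) * e.toBasis.det x).im = 0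
  torus : ∀ y ∈ B, Nonempty (↥(U ∩ f ⁻¹' {y}) ≃ₜ (Fin n → AddCircle (1 : ℝ)))

/-- A polarised family of flat Calabi–Yau manifolds over the punctured disc. The parameter `s` runs
through the universal covering of the punctured disc, `σ` is the generator of the group of deck
transformations, the fibre at `s` is `V / Γ` for the action `ρ s` of its fundamental group `Γ`, and
`T` is the monodromy.

* `trans`: `Λ` is the group of translations in `Γ`.
* `pol`: the class of the Kähler form (a form on `Λ`, the first Chern class of the polarisation) is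
  locally constant.
* `mono`: the fibres at `s` and `σ s` are the same, the identifications of their fundamental groups
  with `Γ` differ by `T`. -/
structure Family (S Γ V : Type) [Group Γ] [NormedAddCommGroup V] [InnerProductSpace ℂ V] where
  ρ : S → Γ →* (V ≃ᵃⁱ[ℂ] V)
  flat : ∀ s, IsFlatCY (ρ s)
  Λ : Subgroup Γ
  trans : ∀ s γ, γ ∈ Λ ↔ ∀ v, ρ s γ v = v + ρ s γ 0
  E : Γ → Γ → ℝ
  pol : ∀ s, ∀ γ ∈ Λ, ∀ δ ∈ Λ, om (ρ s γ 0) (ρ s δ 0) = E γ δ
  T : MulAut Γ
  σ : S → S
  mono : ∀ s, ∃ g : V ≃ᵃⁱ[ℂ] V, ∀ γ, ρ (σ s) γ = g * ρ s (T γ) * g⁻¹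

/-- The family is a maximal degeneration: for some `m ≥ 1` (after a base change of degree `m`) the
power `T' = T ^ m` of the monodromy is trivial on the finite group `Γ / Λ` and unipotent on `Λ`, the
first homology of the tori which cover the fibres (then `(T' - 1) ^ 2 = 0`), and the image of
`T' - 1` in `Λ ⊗ ℝ = V` has dimension `n`. -/
def IsMaximal {S Γ V : Type} [Group Γ] [NormedAddCommGroup V] [InnerProductSpace ℂ V]
    (F : Family S Γ V) (n : ℕ) : Prop :=
  ∃ m ≥ 1, (∀ γ, (F.T ^ m) γ * γ⁻¹ ∈ F.Λ) ∧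
    (∀ γ ∈ F.Λ, (F.T ^ m) ((F.T ^ m) γ * γ⁻¹) = (F.T ^ m) γ * γ⁻¹) ∧
    ∀ s, finrank ℝ (Submodule.span ℝ {x | ∃ γ ∈ F.Λ, x = F.ρ s ((F.T ^ m) γ * γ⁻¹) 0}) = n

end Pool.Agent.W2helper93.YZ
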