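import Mathlib

/-!
# A fundamental domain for the action on the base

A group `Γ` acts on the euclidean space `E` by affine isometries `a γ` with linear parts `A γ` which
preserve the subspace `W`; it contains translations along a lattice of `W`. We construct a Dirichlet
domain for the action on `E / W = Wᗮ`.
-/

set_option autoImplicit false
set_option linter.unusedSectionVars false

open Topology MeasureTheory Module

namespace Pool.Agent.W2helper93.YZ

variable {E : Type} [NormedAddCommGroup E] [InnerProductSpace ℝ E] [FiniteDimensional ℝ E]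
  {Γ : Type} [Group Γ]

/-- An action by affine isometries, the linear parts preserve `W`. -/
structure Act (W : Submodule ℝ E) (a : Γ → E → E) (A : Γ → E →ₗ[ℝ] E) : Prop where
  one : ∀ v, a 1 v = v
  mul : ∀ γ δ v, a (γ * δ) v = a γ (a δ v)
  sub : ∀ γ v w, a γ v - a γ w = A γ (v - w)
  norm : ∀ γ x, ‖A γ x‖ = ‖x‖
  inv : ∀ γ, ∀ x ∈ W, A γ x ∈ W
  proper : ∀ v R, {γ | ‖a γ v‖ ≤ R}.Finite
  /-- translations in `Γ` are cocompact in `W` -/
  coW : ∃ C : ℝ, ∀ u ∈ W, ∃ (γ : Γ) (l : E), l ∈ W ∧ (∀ v, a γ v = v - l) ∧ ‖u - l‖ ≤ C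

/-- the projection to the orthogonal complement of `W` -/
noncomputable def P (W : Submodule ℝ E) : E →L[ℝ] Wᗮ := Wᗮ.orthogonalProjectionOnto

variable {W : Submodule ℝ E} {a : Γ → E → E} {A : Γ → E →ₗ[ℝ] E}

theorem sub_P (W : Submodule ℝ E) (x : E) : x - (P W x : E) ∈ W := by
  have h := Wᗮ.sub_starProjection_mem_orthogonal x
  rw [Submodule.orthogonal_orthogonal] at h
  exact h

theorem P_coe (W : Submodule ℝ E) (x : Wᗮ) : P W (x : E) = x :=
  Wᗮ.orthogonalProjectionOnto_mem_subspace_eq_self x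

theorem P_of_mem {x : E} (hx : x ∈ W) : P W x = 0 := by
  have h1 : (P W x : E) ∈ W := by
    have := W.sub_mem hx (sub_P W x)
    rwa [sub_sub_cancel] at this
  have h2 := (P W x).2
  have h3 : (P W x : E) = 0 := by
    rw [← inner_self_eq_zero (𝕜 := ℝ)]
    exact h2 _ h1
  exact Subtype.ext h3

theorem P_eq_zero {x : E} : P W x = 0 ↔ x ∈ W := by
  refine ⟨fun h => ?_, P_of_mem⟩
  have := sub_P W x
  rw [h] at this
  simpa using this

theorem P_surj (W : Submodule ℝ E) : Function.Surjective (P W) := fun x => ⟨x, P_coe W x⟩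

theorem A_inv (h : Act W a A) (γ : Γ) (x : E) : A γ (A γ⁻¹ x) = x := by
  have h1 := h.sub γ⁻¹ x 0
  rw [sub_zero] at h1
  rw [← h1, ← h.sub, ← h.mul, ← h.mul, mul_inv_cancel, h.one, h.one, sub_zero]

theorem A_orth (h : Act W a A) (γ : Γ) {x : E} (hx : x ∈ Wᗮ) : A γ x ∈ Wᗮ := by
  intro w hw
  have h1 : inner ℝ (A γ (A γ⁻¹ w)) (A γ x) = inner ℝ (A γ⁻¹ w) x := by
    let L : E →ₗᵢ[ℝ] E := ⟨A γ, h.norm γ⟩
    exact L.inner_map_map _ _
  rw [A_inv h] at h1
  rw [h1]
  exact hx _ (h.inv _ _ hw)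

theorem P_A (h : Act W a A) (γ : Γ) (x : E) : (P W (A γ x) : E) = A γ (P W x) := by
  have h1 : A γ x = A γ (P W x) + A γ (x - P W x) := by rw [← map_add]; congr 1; abel
  rw [h1, map_add, P_of_mem (h.inv γ _ (sub_P W x)), add_zero]
  exact congrArg Subtype.val (P_coe W ⟨A γ (P W x), A_orth h γ (P W x).2⟩)

theorem norm_P_A (h : Act W a A) (γ : Γ) (x : E) : ‖P W (A γ x)‖ = ‖P W x‖ := by
  change ‖(P W (A γ x) : E)‖ = ‖(P W x : E)‖
  rw [P_A h, h.norm]

theorem dist_P (h : Act W a A) (γ : Γ) (v w : E) :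
    ‖P W (a γ v) - P W (a γ w)‖ = ‖P W v - P W w‖ := by
  rw [← map_sub, h.sub, norm_P_A h, map_sub]

/-- the orbit of `b` in the base -/
noncomputable def q (W : Submodule ℝ E) (a : Γ → E → E) (b : E) (γ : Γ) : Wᗮ := P W (a γ b)

/-- the Dirichlet domain -/
def Dir (W : Submodule ℝ E) (a : Γ → E → E) (b : E) : Set E :=
  {v | ∀ γ, q W a b γ ≠ P W b → ‖P W v - P W b‖ < ‖P W v - q W a b γ‖}

theorem q_inv (h : Act W a A) (b : E) {γ : Γ} (hq : q W a b γ⁻¹ = P W b) : q W a b γ = P W b := by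
  have h1 := dist_P h γ (a γ⁻¹ b) b
  rw [← h.mul, mul_inv_cancel, h.one] at h1
  rw [q] at hq
  rw [hq, sub_self, norm_zero, norm_eq_zero, sub_eq_zero] at h1
  exact h1.symm

/-- The translates of the Dirichlet domain are disjoint. -/
theorem key (h : Act W a A) {b v : E} {γ : Γ} (hv : v ∈ Dir W a b) (hγ : a γ v ∈ Dir W a b) :
    q W a b γ = P W b := by
  by_contra hq
  have h1 := hγ γ hq
  have h2 := hv γ⁻¹ (fun h0 => hq (q_inv h b h0))
  have h3 : ‖P W (a γ v) - q W a b γ‖ = ‖P W v - P W b‖ := dist_P h γ v b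
  have h4 : ‖P W (a γ v) - P W b‖ = ‖P W v - q W a b γ⁻¹‖ := by
    have := dist_P h γ v (a γ⁻¹ b)
    rwa [← h.mul, mul_inv_cancel, h.one] at this
  rw [h3, h4] at h1
  exact lt_asymm h1 h2

/-- The orbit in the base is locally finite. -/
theorem finite_orbit (h : Act W a A) (b : E) (R : ℝ) :
    {x : Wᗮ | (∃ γ, x = q W a b γ) ∧ ‖x‖ ≤ R}.Finite := by
  obtain ⟨C, hC⟩ := h.coW
  refine ((h.proper b (R + C)).image (q W a b)).subset ?_
  rintro x ⟨⟨γ, rfl⟩, hx⟩
  obtain ⟨δ, l, hl, hδ, hn⟩ := hC (a γ b - (q W a b γ : E)) (sub_P W _)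
  refine ⟨δ * γ, ?_, ?_⟩
  · change ‖a (δ * γ) b‖ ≤ R + C
    rw [h.mul, hδ]
    have e : a γ b - l = (q W a b γ : E) + (a γ b - (q W a b γ : E) - l) := by abel
    rw [e]
    exact (norm_add_le _ _).trans (add_le_add hx hn)
  · change P W (a (δ * γ) b) = P W (a γ b)
    rw [h.mul, hδ, map_sub, P_of_mem hl, sub_zero]

theorem isOpen_Dir (h : Act W a A) (b : E) : IsOpen (Dir W a b) := by
  rw [isOpen_iff_mem_nhds]
  intro v hv
  set M : ℝ := 2 * (‖P W v‖ + 1) + ‖P W b‖ + 1 with hM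
  set F := {x : Wᗮ | (∃ γ, x = q W a b γ) ∧ ‖x‖ ≤ M} ∩ {x | x ≠ P W b} with hF
  have hfin : F.Finite := (finite_orbit h b M).inter_of_left _
  have hcont : Continuous (P W) := (P W).continuous
  have h1 : IsOpen (⋂ x ∈ F, {w : E | ‖P W w - P W b‖ < ‖P W w - x‖}) :=
    hfin.isOpen_biInter fun x _ => isOpen_lt (by fun_prop) (by fun_prop)
  have h2 : IsOpen {w : E | ‖P W w - P W v‖ < 1} := isOpen_lt (by fun_prop) (by fun_prop)
  refine Filter.mem_of_superset ((h1.inter h2).mem_nhds ⟨?_, ?_⟩) ?_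
  · simp only [Set.mem_iInter]
    rintro x ⟨⟨⟨γ, rfl⟩, -⟩, hx⟩
    exact hv γ hx
  · simp
  · rintro w ⟨hw1, hw2⟩ γ hγ
    by_cases hn : ‖q W a b γ‖ ≤ M
    · simp only [Set.mem_iInter] at hw1
      exact hw1 _ ⟨⟨⟨γ, rfl⟩, hn⟩, hγ⟩
    · push Not at hn
      have e1 : ‖P W w‖ ≤ ‖P W v‖ + 1 := by
        have h3 : ‖P W w - P W v‖ < 1 := hw2
        have h4 := norm_sub_norm_le (P W w) (P W v)
        linarith
      have e2 : ‖q W a b γ‖ - ‖P W w‖ ≤ ‖P W w - q W a b γ‖ := by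
        rw [norm_sub_rev]
        exact norm_sub_norm_le _ _
      have e3 := norm_sub_le (P W w) (P W b)
      linarith

section Meas

variable [MeasurableSpace E] [BorelSpace E] (μ : Measure E) [μ.IsAddHaarMeasure]

theorem countable_group (h : Act W a A) : Countable Γ := by
  have h1 : (Set.univ : Set Γ) = ⋃ n : ℕ, {γ | ‖a γ 0‖ ≤ n} := by
    ext γ
    simp only [Set.mem_univ, Set.mem_iUnion, true_iff]
    exact exists_nat_ge ‖a γ 0‖
  rw [← Set.countable_univ_iff, h1]
  exact Set.countable_iUnion fun n => (h.proper 0 n).countable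

/-- There is a point with trivial stabilizer in the base. -/
theorem exists_base (h : Act W a A) :
    ∃ b : E, ∀ γ, q W a b γ = P W b → ∀ v, P W (a γ v) = P W v := by
  borelize E
  by_contra hcon
  push Not at hcon
  have := countable_group h
  let μ : Measure E := volume
  have hnull : ∀ γ : {γ : Γ // ∃ v, P W (a γ v) ≠ P W v}, μ {v | P W (a γ v) = P W v} = 0 := by
    rintro ⟨γ, v0, hv0⟩
    let s : AffineSubspace ℝ E :=
      { carrier := {v | P W (a γ v) = P W v}
        smul_vsub_vadd_mem' := by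
          intro c p1 p2 p3 h1 h2 h3
          simp only [Set.mem_ofPred_eq, vsub_eq_sub, vadd_eq_add] at h1 h2 h3 ⊢
          have e1 : a γ (c • (p1 - p2) + p3) = a γ p3 + A γ (c • (p1 - p2)) := by
            have := h.sub γ (c • (p1 - p2) + p3) p3
            rw [add_sub_cancel_right] at this
            rw [← this]
            abel
          rw [e1, map_add, map_smul, map_smul, ← h.sub γ p1 p2, map_sub, h1, h2, h3, map_add,
            map_smul, map_sub]
          abel }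
    have hs : s ≠ ⊤ := by
      intro hs
      apply hv0
      have : v0 ∈ s := by rw [hs]; exact AffineSubspace.mem_top ℝ E v0
      exact this
    exact Measure.addHaar_affineSubspace μ s hs
  have huniv : (Set.univ : Set E) ⊆
      ⋃ γ : {γ : Γ // ∃ v, P W (a γ v) ≠ P W v}, {v | P W (a γ v) = P W v} := by
    intro b _
    obtain ⟨γ, hγ, v, hv⟩ := hcon b
    exact Set.mem_iUnion.2 ⟨⟨γ, v, hv⟩, hγ⟩
  have h0 : μ Set.univ = 0 := measure_mono_null huniv (measure_iUnion_null hnull)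
  exact (Measure.measure_univ_ne_zero.2 (NeZero.ne μ)) h0

/-- Almost every point has a translate in the Dirichlet domain. -/
theorem null_compl (h : Act W a A) (b : E) : μ {v | ∀ γ, a γ v ∉ Dir W a b} = 0 := by
  have hc := countable_group h
  have hnull : ∀ t : {t : Γ × Γ // q W a b t.1 ≠ q W a b t.2},
      μ {v | ‖P W v - q W a b t.1.1‖ = ‖P W v - q W a b t.1.2‖} = 0 := by
    rintro ⟨⟨γ, δ⟩, hne⟩
    have hne' : (q W a b γ : E) ≠ q W a b δ := fun h0 => hne (Subtype.ext h0)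
    refine measure_mono_null ?_ (Measure.addHaar_affineSubspace μ
      (AffineSubspace.perpBisector (q W a b γ : E) (q W a b δ)) ?_)
    · intro v hv
      have hv' : ‖P W v - q W a b γ‖ = ‖P W v - q W a b δ‖ := hv
      rw [SetLike.mem_coe, AffineSubspace.mem_perpBisector_iff_dist_eq, dist_eq_norm, dist_eq_norm]
      have hpy : ∀ x : Wᗮ, ‖v - x‖ * ‖v - x‖ = ‖v - P W v‖ * ‖v - P W v‖ +
          ‖P W v - x‖ * ‖P W v - x‖ := by
        intro x
        have e : v - x = (v - P W v) + ((P W v - x : Wᗮ) : E) := by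
          rw [Submodule.coe_sub]
          abel
        rw [e, norm_add_mul_self_real, (P W v - x).2 _ (sub_P W v), Submodule.coe_norm]
        ring
      have h1 := hpy (q W a b γ)
      have h2 := hpy (q W a b δ)
      rw [hv', ← h2] at h1
      exact (mul_self_inj (norm_nonneg _) (norm_nonneg _)).1 h1
    · rw [Ne, AffineSubspace.perpBisector_eq_top]
      exact hne'
  refine measure_mono_null ?_ (measure_iUnion_null hnull)
  intro v hv
  -- the nearest point of the orbit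
  set R := ‖P W v‖ + ‖P W v - P W b‖ with hR
  set F := {x : Wᗮ | (∃ γ, x = q W a b γ) ∧ ‖x‖ ≤ R} with hF
  have hfin : F.Finite := finite_orbit h b R
  have hb : P W b ∈ F := by
    refine ⟨⟨1, by rw [q, h.one]⟩, ?_⟩
    have := norm_sub_norm_le (P W b) (P W v)
    rw [norm_sub_rev (P W b)] at this
    linarith
  obtain ⟨x, hx, hmin⟩ := hfin.exists_minimalFor (fun x => ‖P W v - x‖) F ⟨_, hb⟩
  obtain ⟨⟨γ₀, rfl⟩, hxR⟩ := hx
  have hmin' : ∀ γ, ‖P W v - q W a b γ₀‖ ≤ ‖P W v - q W a b γ‖ := by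
    intro γ
    by_cases hγ : ‖q W a b γ‖ ≤ R
    · by_contra hlt
      push Not at hlt
      exact absurd (hmin ⟨⟨γ, rfl⟩, hγ⟩ hlt.le) (not_le.2 hlt)
    · push Not at hγ
      have h1 : ‖P W v - q W a b γ₀‖ ≤ ‖P W v - P W b‖ := by
        by_contra hlt
        push Not at hlt
        exact absurd (hmin hb hlt.le) (not_le.2 hlt)
      have h2 : ‖q W a b γ‖ - ‖P W v‖ ≤ ‖P W v - q W a b γ‖ := by
        rw [norm_sub_rev]
        exact norm_sub_norm_le _ _
      linarith
  have h3 := hv γ₀⁻¹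
  simp only [Dir, Set.mem_ofPred_eq] at h3
  push Not at h3
  obtain ⟨γ, hγ, hle⟩ := h3
  have e1 : ‖P W (a γ₀⁻¹ v) - q W a b γ‖ = ‖P W v - q W a b (γ₀ * γ)‖ := by
    have := dist_P h γ₀ (a γ₀⁻¹ v) (a γ b)
    rw [← h.mul, mul_inv_cancel, h.one, ← h.mul] at this
    exact this.symm
  have e2 : ‖P W (a γ₀⁻¹ v) - P W b‖ = ‖P W v - q W a b γ₀‖ := by
    have := dist_P h γ₀ (a γ₀⁻¹ v) b
    rw [← h.mul, mul_inv_cancel, h.one] at this
    exact this.symm
  rw [e1, e2] at hle
  have hne : q W a b (γ₀ * γ) ≠ q W a b γ₀ := by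
    intro h0
    apply hγ
    have := dist_P h γ₀ (a γ b) b
    rw [← h.mul] at this
    change ‖q W a b (γ₀ * γ) - q W a b γ₀‖ = ‖q W a b γ - P W b‖ at this
    rw [h0, sub_self, norm_zero] at this
    exact sub_eq_zero.1 (norm_eq_zero.1 this.symm)
  exact Set.mem_iUnion.2 ⟨⟨(γ₀ * γ, γ₀), hne⟩, le_antisymm hle (hmin' _)⟩

end Meas

end Pool.Agent.W2helper93.YZ
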