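import Pool.Agent.W2helper93.YZ.Dir

/-!
# The torus fibration

`π : E → X` is the quotient by the action of `Γ`. Over the image `U` of the Dirichlet domain the
projection to `E / W = Wᗮ` defines a fibration by tori.
-/

set_option autoImplicit false
set_option linter.unusedSectionVars false

open Topology MeasureTheory Module

namespace Pool.Agent.W2helper93.YZ

variable {E : Type} [NormedAddCommGroup E] [InnerProductSpace ℝ E] [FiniteDimensional ℝ E]
  {Γ : Type} [Group Γ] {W : Submodule ℝ E} {a : Γ → E → E} {A : Γ → E →ₗ[ℝ] E}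
  {X : Type} [TopologicalSpace X]

/-- `π` is the quotient map. -/
structure IsQuot (a : Γ → E → E) (π : E → X) : Prop where
  quot : IsQuotientMap π
  iff : ∀ v w, π v = π w ↔ ∃ γ, a γ v = w

/-- `w` is a basis of the lattice of translations along `W`; the elements of `Γ` which are trivial on
the base are translations. -/
structure Lat {n : ℕ} (W : Submodule ℝ E) (a : Γ → E → E) (w : Basis (Fin n) ℝ W) : Prop where
  tr : ∀ l : Fin n → ℤ, ∃ γ, ∀ v, a γ v = v + ((∑ i, (l i : ℝ) • w i : W) : E)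
  only : ∀ γ, (∀ v, P W (a γ v) = P W v) → ∃ l : Fin n → ℤ,
    ∀ v, a γ v = v + ((∑ i, (l i : ℝ) • w i : W) : E)

theorem cont_a (h : Act W a A) (γ : Γ) : Continuous (a γ) := by
  refine Isometry.continuous (Isometry.of_dist_eq fun v w => ?_)
  rw [dist_eq_norm, dist_eq_norm, h.sub, h.norm]

theorem isOpenMap_pi (h : Act W a A) {π : E → X} (hπ : IsQuot a π) : IsOpenMap π := by
  intro O hO
  rw [← hπ.quot.isOpen_preimage]
  have : π ⁻¹' (π '' O) = ⋃ γ, a γ ⁻¹' O := by
    ext v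
    simp only [Set.mem_preimage, Set.mem_image, Set.mem_iUnion]
    constructor
    · rintro ⟨u, hu, huv⟩
      obtain ⟨γ, hγ⟩ := (hπ.iff v u).1 huv.symm
      exact ⟨γ, by rwa [hγ]⟩
    · rintro ⟨γ, hγ⟩
      exact ⟨a γ v, hγ, ((hπ.iff v _).2 ⟨γ, rfl⟩).symm⟩
  rw [this]
  exact isOpen_iUnion fun γ => hO.preimage (cont_a h γ)

theorem mem_Dir_iff {b v : E} : v ∈ Dir W a b ↔ (P W v : E) ∈ Dir W a b := by
  simp only [Dir, Set.mem_ofPred_eq, P_coe]

open Classical in
/-- the fibration -/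
noncomputable def fib (W : Submodule ℝ E) (a : Γ → E → E) (π : E → X) (b : E) (x : X) : Wᗮ :=
  if h : ∃ v ∈ Dir W a b, π v = x then P W h.choose else 0

section

variable {π : E → X} {b : E}

theorem fib_apply (h : Act W a A) (hπ : IsQuot a π)
    (hb : ∀ γ, q W a b γ = P W b → ∀ v, P W (a γ v) = P W v) {v : E} (hv : v ∈ Dir W a b) :
    fib W a π b (π v) = P W v := by
  have hex : ∃ u ∈ Dir W a b, π u = π v := ⟨v, hv, rfl⟩
  rw [fib, dif_pos hex]
  obtain ⟨h1, h2⟩ := hex.choose_spec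
  obtain ⟨γ, hγ⟩ := (hπ.iff _ _).1 h2
  have h3 : a γ hex.choose ∈ Dir W a b := by rwa [hγ]
  rw [← hb γ (key h h1 h3), hγ]

theorem exists_rep (hπ : IsQuot a π) {v : E} (hv : π v ∈ π '' Dir W a b) :
    ∃ γ, a γ v ∈ Dir W a b := by
  obtain ⟨u, hu, huv⟩ := hv
  obtain ⟨γ, hγ⟩ := (hπ.iff v u).1 huv.symm
  exact ⟨γ, by rwa [hγ]⟩

/-- the base -/
def bas (W : Submodule ℝ E) (a : Γ → E → E) (b : E) : Set Wᗮ := {x | (x : E) ∈ Dir W a b}

theorem isOpen_bas (h : Act W a A) : IsOpen (bas W a b) :=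
  (isOpen_Dir h b).preimage continuous_subtype_val

theorem mem_bas {x : Wᗮ} : x ∈ bas W a b ↔ (x : E) ∈ Dir W a b := Iff.rfl

theorem image_eq (h : Act W a A) (hπ : IsQuot a π)
    (hb : ∀ γ, q W a b γ = P W b → ∀ v, P W (a γ v) = P W v) :
    fib W a π b '' (π '' Dir W a b) = bas W a b := by
  apply Set.Subset.antisymm
  · intro x hx
    obtain ⟨y, ⟨v, hv, hy⟩, hx⟩ := hx
    rw [← hx, ← hy, fib_apply h hπ hb hv, mem_bas]
    exact mem_Dir_iff.1 hv
  · intro x hx
    have hx' : (x : E) ∈ Dir W a b := mem_bas.1 hx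
    have h2 := fib_apply h hπ hb hx'
    rw [P_coe] at h2
    exact ⟨π (x : E), ⟨(x : E), hx', rfl⟩, h2⟩

theorem ker_iff (h : Act W a A) (γ : Γ) (x : E) : P W (A γ x) = 0 ↔ x ∈ W := by
  rw [P_eq_zero]
  refine ⟨fun hx => ?_, h.inv γ x⟩
  have h1 := h.inv γ⁻¹ _ hx
  have h2 := A_inv h γ⁻¹ x
  rw [inv_inv] at h2
  rwa [h2] at h1

/-- the derivative of the fibration -/
noncomputable def der (W : Submodule ℝ E) (A : Γ → E →ₗ[ℝ] E) (γ : Γ) : E →L[ℝ] Wᗮ :=
  (P W).comp (LinearMap.toContinuousLinearMap (A γ))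

theorem der_apply (γ : Γ) (x : E) : der W A γ x = P W (A γ x) := rfl

theorem submersion (h : Act W a A) (hπ : IsQuot a π)
    (hb : ∀ γ, q W a b γ = P W b → ∀ v, P W (a γ v) = P W v) {v : E}
    (hv : π v ∈ π '' Dir W a b) : ∃ L : E →L[ℝ] Wᗮ, Function.Surjective L ∧
      (∀ᶠ w in 𝓝 v, fib W a π b (π w) = fib W a π b (π v) + L (w - v)) ∧
      ∀ x, L x = 0 ↔ x ∈ W := by
  obtain ⟨γ, hγ⟩ := exists_rep hπ hv
  refine ⟨der W A γ, ?_, ?_, fun x => ?_⟩
  · intro y
    obtain ⟨u, hu⟩ := P_surj W y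
    refine ⟨A γ⁻¹ u, ?_⟩
    rw [der_apply, A_inv h, hu]
  · have hopen : IsOpen (a γ ⁻¹' Dir W a b) := (isOpen_Dir h b).preimage (cont_a h γ)
    filter_upwards [hopen.mem_nhds hγ] with w hw
    have e1 : π w = π (a γ w) := (hπ.iff _ _).2 ⟨γ, rfl⟩
    have e2 : π v = π (a γ v) := (hπ.iff _ _).2 ⟨γ, rfl⟩
    rw [e1, e2, fib_apply h hπ hb hw, fib_apply h hπ hb hγ, der_apply, ← h.sub, map_sub]
    abel
  · rw [der_apply, ker_iff h]

theorem proper (h : Act W a A) (hπ : IsQuot a π)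
    (hb : ∀ γ, q W a b γ = P W b → ∀ v, P W (a γ v) = P W v) {K : Set Wᗮ}
    (hK : K ⊆ bas W a b) (hKc : IsCompact K) :
    IsCompact (π '' Dir W a b ∩ fib W a π b ⁻¹' K) := by
  obtain ⟨C, hC⟩ := h.coW
  have hc : IsCompact {v : E | P W v ∈ K ∧ ‖v - (P W v : E)‖ ≤ C} := by
    apply Metric.isCompact_of_isClosed_isBounded
    · refine IsClosed.and ?_ ?_
      · exact hKc.isClosed.preimage (P W).continuous
      · exact isClosed_le (by fun_prop) continuous_const
    · obtain ⟨R, hR⟩ := hKc.isBounded.exists_norm_le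
      rw [isBounded_iff_forall_norm_le]
      refine ⟨R + C, fun v hv => ?_⟩
      have e : v = (P W v : E) + (v - (P W v : E)) := by abel
      rw [e]
      exact (norm_add_le _ _).trans (add_le_add (hR _ hv.1) hv.2)
  have heq : π '' Dir W a b ∩ fib W a π b ⁻¹' K =
      π '' {v : E | P W v ∈ K ∧ ‖v - (P W v : E)‖ ≤ C} := by
    ext x
    constructor
    · rintro ⟨⟨v, hv, rfl⟩, hx⟩
      rw [Set.mem_preimage, fib_apply h hπ hb hv] at hx
      obtain ⟨γ, l, hl, hγ, hn⟩ := hC (v - (P W v : E)) (sub_P W v)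
      have e : P W (v - l) = P W v := by rw [map_sub, P_of_mem hl, sub_zero]
      refine ⟨v - l, ⟨?_, ?_⟩, ?_⟩
      · rwa [e]
      · rw [e]
        have e2 : v - l - (P W v : E) = v - (P W v : E) - l := by abel
        rwa [e2]
      · exact ((hπ.iff v _).2 ⟨γ, hγ v⟩).symm
    · rintro ⟨v, ⟨hv1, hv2⟩, rfl⟩
      have hv : v ∈ Dir W a b := mem_Dir_iff.2 (hK hv1)
      refine ⟨⟨v, hv, rfl⟩, ?_⟩
      rwa [Set.mem_preimage, fib_apply h hπ hb hv]
  rw [heq]
  exact hc.image hπ.quot.continuous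

/-- the standard covering of the torus -/
def cov (n : ℕ) (c : Fin n → ℝ) : Fin n → AddCircle (1 : ℝ) := fun i => (c i : AddCircle (1 : ℝ))

theorem cov_quot (n : ℕ) : IsOpenQuotientMap (cov n) :=
  IsOpenQuotientMap.piMap (f := fun (_ : Fin n) (x : ℝ) => (x : AddCircle (1 : ℝ)))
    fun _ => QuotientAddGroup.isOpenQuotientMap_mk

theorem cov_eq {n : ℕ} {c c' : Fin n → ℝ} :
    cov n c = cov n c' ↔ ∃ l : Fin n → ℤ, ∀ i, c' i = c i + l i := by
  constructor
  · intro hc
    have h1 : ∀ i, ∃ k : ℤ, c' i = c i + k := by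
      intro i
      have h2 : ((c' i - c i : ℝ) : AddCircle (1 : ℝ)) = 0 := by
        rw [AddCircle.coe_sub, sub_eq_zero]
        exact (congrFun hc i).symm
      obtain ⟨k, hk⟩ := AddCircle.coe_eq_zero_iff (1 : ℝ) |>.1 h2
      refine ⟨k, ?_⟩
      rw [zsmul_eq_mul, mul_one] at hk
      linarith
    choose l hl using h1
    exact ⟨l, hl⟩
  · rintro ⟨l, hl⟩
    funext i
    have h2 : ((c' i - c i : ℝ) : AddCircle (1 : ℝ)) = 0 := by
      refine (AddCircle.coe_eq_zero_iff (1 : ℝ)).2 ⟨l i, ?_⟩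
      rw [hl i, zsmul_eq_mul, mul_one]
      ring
    rw [AddCircle.coe_sub, sub_eq_zero] at h2
    exact h2.symm

theorem torus (h : Act W a A) (hπ : IsQuot a π)
    (hb : ∀ γ, q W a b γ = P W b → ∀ v, P W (a γ v) = P W v) {n : ℕ} {w : Basis (Fin n) ℝ W}
    (hw : Lat W a w) {x : Wᗮ} (hx : x ∈ bas W a b) :
    Nonempty (↥(π '' Dir W a b ∩ fib W a π b ⁻¹' {x}) ≃ₜ (Fin n → AddCircle (1 : ℝ))) := by
  set F := π '' Dir W a b ∩ fib W a π b ⁻¹' {x} with hF
  have hsum : ∀ c : Fin n → ℝ, P W ((x : E) + ((∑ i, c i • w i : W) : E)) = x := by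
    intro c
    rw [map_add, P_coe, P_of_mem (Subtype.coe_prop _), add_zero]
  have hD : ∀ c : Fin n → ℝ, (x : E) + ((∑ i, c i • w i : W) : E) ∈ Dir W a b := by
    intro c
    rw [mem_Dir_iff, hsum]
    exact hx
  let g : (Fin n → ℝ) → F := fun c => ⟨π ((x : E) + ((∑ i, c i • w i : W) : E)),
    ⟨_, hD c, rfl⟩, by
      rw [Set.mem_preimage, fib_apply h hπ hb (hD c), hsum]
      exact Set.mem_singleton _⟩
  have hgc : Continuous g := by
    refine Continuous.subtype_mk (hπ.quot.continuous.comp ?_) _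
    refine continuous_const.add (continuous_subtype_val.comp ?_)
    exact continuous_finsetSum _ fun i _ => (continuous_apply i).smul continuous_const
  -- coordinates
  have hrep : ∀ v : E, P W v = x → ∃ c : Fin n → ℝ,
      v = (x : E) + ((∑ i, c i • w i : W) : E) := by
    intro v hv
    refine ⟨w.equivFun ⟨v - (x : E), ?_⟩, ?_⟩
    · rw [← hv]
      exact sub_P W v
    · rw [← w.equivFun_symm_apply, LinearEquiv.symm_apply_apply]
      change v = (x : E) + (v - (x : E))
      abel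
  have hgs : Function.Surjective g := by
    rintro ⟨_, ⟨v, hv, rfl⟩, hvx⟩
    rw [Set.mem_preimage, fib_apply h hπ hb hv, Set.mem_singleton_iff] at hvx
    obtain ⟨c, hc⟩ := hrep v hvx
    exact ⟨c, Subtype.ext (congrArg π hc.symm)⟩
  have hgo : IsOpenMap g := by
    intro O hO
    let co : E → Fin n → ℝ := fun v => w.equivFun ⟨v - (P W v : E), sub_P W v⟩
    have hco : Continuous co := by
      refine (LinearMap.continuous_of_finiteDimensional w.equivFun.toLinearMap).comp ?_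
      exact Continuous.subtype_mk (by fun_prop) _
    have hset : IsOpen (π '' (co ⁻¹' O ∩ Dir W a b)) :=
      isOpenMap_pi h hπ _ ((hO.preimage hco).inter (isOpen_Dir h b))
    have : g '' O = Subtype.val ⁻¹' (π '' (co ⁻¹' O ∩ Dir W a b)) := by
      ext ⟨y, hy⟩
      constructor
      · rintro ⟨c, hc, hcy⟩
        have hcy' : π ((x : E) + ((∑ i, c i • w i : W) : E)) = y := congrArg Subtype.val hcy
        refine ⟨_, ⟨?_, hD c⟩, hcy'⟩
        have e1 : (⟨(x : E) + ((∑ i, c i • w i : W) : E) -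
            (P W ((x : E) + ((∑ i, c i • w i : W) : E)) : E), sub_P W _⟩ : W) =
            ∑ i, c i • w i := by
          apply Subtype.ext
          change (x : E) + ((∑ i, c i • w i : W) : E) -
            (P W ((x : E) + ((∑ i, c i • w i : W) : E)) : E) = _
          rw [hsum]
          abel
        change w.equivFun _ ∈ O
        rw [e1, ← w.equivFun_symm_apply, LinearEquiv.apply_symm_apply]
        exact hc
      · rintro ⟨v, ⟨hv1, hv2⟩, hvy⟩
        change π v = y at hvy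
        have hyx := hy.2
        rw [← hvy, Set.mem_preimage, fib_apply h hπ hb hv2, Set.mem_singleton_iff] at hyx
        refine ⟨co v, hv1, Subtype.ext ?_⟩
        change π ((x : E) + ((∑ i, co v i • w i : W) : E)) = y
        rw [← w.equivFun_symm_apply, LinearEquiv.symm_apply_apply, ← hvy]
        congr 1
        change (x : E) + (v - (P W v : E)) = v
        rw [hyx]
        abel
    rw [this]
    exact hset.preimage continuous_subtype_val
  have hgq : IsQuotientMap (⟨g, hgc⟩ : C(Fin n → ℝ, F)) :=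
    (IsOpenQuotientMap.mk hgs hgc hgo).isQuotientMap
  have hcq : IsQuotientMap (⟨cov n, (cov_quot n).continuous⟩ :
      C(Fin n → ℝ, Fin n → AddCircle (1 : ℝ))) := (cov_quot n).isQuotientMap
  have hker : Setoid.ker (⟨g, hgc⟩ : C(Fin n → ℝ, F)) =
      Setoid.ker (⟨cov n, (cov_quot n).continuous⟩ :
      C(Fin n → ℝ, Fin n → AddCircle (1 : ℝ))) := by
    ext c c'
    rw [Setoid.ker_def, Setoid.ker_def]
    change g c = g c' ↔ cov n c = cov n c'
    rw [cov_eq]
    have hadd : ∀ l : Fin n → ℤ, ((∑ i, (c i + l i) • w i : W) : E) =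
        ((∑ i, c i • w i : W) : E) + ((∑ i, (l i : ℝ) • w i : W) : E) := by
      intro l
      rw [← Submodule.coe_add, ← Finset.sum_add_distrib]
      simp only [add_smul]
    constructor
    · intro hcc
      have h1 : π ((x : E) + ((∑ i, c i • w i : W) : E)) =
          π ((x : E) + ((∑ i, c' i • w i : W) : E)) := congrArg Subtype.val hcc
      obtain ⟨γ, hγ⟩ := (hπ.iff _ _).1 h1
      have h2 : a γ ((x : E) + ((∑ i, c i • w i : W) : E)) ∈ Dir W a b := by
        rw [hγ]
        exact hD c'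
      obtain ⟨l, hl⟩ := hw.only γ (hb γ (key h (hD c) h2))
      refine ⟨l, ?_⟩
      rw [hl] at hγ
      have h3 : ∑ i, c' i • w i = ∑ i, (c i + l i) • w i := by
        apply Subtype.ext
        rw [hadd]
        have := add_left_cancel (a := (x : E)) ((add_assoc _ _ _).symm.trans hγ)
        exact this.symm
      have h4 := congrArg w.equivFun h3
      rw [← w.equivFun_symm_apply, ← w.equivFun_symm_apply, LinearEquiv.apply_symm_apply,
        LinearEquiv.apply_symm_apply] at h4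
      exact fun i => congrFun h4 i
    · rintro ⟨l, hl⟩
      obtain ⟨γ, hγ⟩ := hw.tr l
      refine Subtype.ext ((hπ.iff _ _).2 ⟨γ, ?_⟩)
      rw [hγ, add_assoc, ← hadd]
      simp only [hl]
  have e : Quotient (Setoid.ker (⟨g, hgc⟩ : C(Fin n → ℝ, F))) ≃ₜ
      (Fin n → AddCircle (1 : ℝ)) := by
    rw [hker]
    exact hcq.homeomorph
  exact ⟨hgq.homeomorph.symm.trans e⟩

end

end Pool.Agent.W2helper93.YZ
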