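import Pool.Agent.W2helper93.YZ.Defs
import Pool.Agent.W2helper93.YZ.Fib

/-!
# The invariant Lagrangian subspace
-/

set_option autoImplicit false
set_option linter.unusedSectionVars false

open Topology MeasureTheory Module

namespace Pool.Agent.W2helper93.YZ

variable {V : Type} [NormedAddCommGroup V] [InnerProductSpace ℂ V]
  {Γ : Type} [Group Γ] {n : ℕ} {S : Type}

theorem om_add_left (x y z : V) : om (x + y) z = om x z + om y z := by
  simp [om]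

theorem om_add_right (x y z : V) : om x (y + z) = om x y + om x z := by
  simp [om]

theorem om_smul_left (c : ℝ) (x y : V) : om (c • x) y = c * om x y := by
  have h : (c • x : V) = ((c : ℂ) • x : V) := rfl
  rw [om, om, h, inner_smul_left, Complex.conj_ofReal, Complex.im_ofReal_mul]

theorem om_smul_right (c : ℝ) (x y : V) : om x (c • y) = c * om x y := by
  have h : (c • y : V) = ((c : ℂ) • y : V) := rfl
  rw [om, om, h, inner_smul_right, Complex.im_ofReal_mul]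

theorem om_zero_left (x : V) : om 0 x = 0 := by simp [om]

theorem om_zero_right (x : V) : om x 0 = 0 := by simp [om]

/-- the linear part -/
noncomputable def lin (g : V ≃ᵃⁱ[ℂ] V) : V ≃ₗᵢ[ℂ] V := g.linearIsometryEquiv

theorem lin_sub (g : V ≃ᵃⁱ[ℂ] V) (v w : V) : g v - g w = lin g (v - w) :=
  (g.map_vsub v w).symm

theorem lin_eq (g : V ≃ᵃⁱ[ℂ] V) (x : V) : lin g x = g x - g 0 := by
  rw [lin_sub, sub_zero]

theorem add_lin (g : V ≃ᵃⁱ[ℂ] V) (v x : V) : g (v + x) = g v + lin g x := by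
  have := lin_sub g (v + x) v
  rw [add_sub_cancel_left] at this
  rw [← this]
  abel

/-- A family with `m = 1`. -/
structure MaxFamily (n : ℕ) (S Γ V : Type) [Group Γ] [NormedAddCommGroup V]
    [InnerProductSpace ℂ V] where
  ρ : S → Γ →* (V ≃ᵃⁱ[ℂ] V)
  flat : ∀ s, IsFlatCY (ρ s)
  Λ : Subgroup Γ
  trans : ∀ s γ, γ ∈ Λ ↔ ∀ v, ρ s γ v = v + ρ s γ 0
  E : Γ → Γ → ℝ
  pol : ∀ s, ∀ γ ∈ Λ, ∀ δ ∈ Λ, om (ρ s γ 0) (ρ s δ 0) = E γ δ
  T : Γ ≃* Γ
  σ : S → S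
  mono : ∀ s, ∃ g : V ≃ᵃⁱ[ℂ] V, ∀ γ, ρ (σ s) γ = g * ρ s (T γ) * g⁻¹
  triv : ∀ γ, T γ * γ⁻¹ ∈ Λ
  unip : ∀ γ ∈ Λ, T (T γ * γ⁻¹) = T γ * γ⁻¹
  max : ∀ s, finrank ℝ (Submodule.span ℝ {x | ∃ γ ∈ Λ, x = ρ s (T γ * γ⁻¹) 0}) = n

theorem mono_pow (F : Family S Γ V) (m : ℕ) (s : S) :
    ∃ g : V ≃ᵃⁱ[ℂ] V, ∀ γ, F.ρ (F.σ^[m] s) γ = g * F.ρ s ((F.T ^ m) γ) * g⁻¹ := by
  induction m with
  | zero => exact ⟨1, fun γ => by rw [pow_zero, one_mul, inv_one, mul_one]; rfl⟩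
  | succ m ih =>
    obtain ⟨g, hg⟩ := ih
    obtain ⟨g', hg'⟩ := F.mono (F.σ^[m] s)
    refine ⟨g' * g, fun γ => ?_⟩
    rw [Function.iterate_succ_apply', hg', hg, pow_succ, MulAut.mul_apply, mul_inv_rev]
    simp only [mul_assoc]

theorem exists_max (F : Family S Γ V) (h : IsMaximal F n) :
    ∃ G : MaxFamily n S Γ V, G.ρ = F.ρ := by
  obtain ⟨m, -, h1, h2, h3⟩ := h
  exact ⟨⟨F.ρ, F.flat, F.Λ, F.trans, F.E, F.pol, F.T ^ m, F.σ^[m], mono_pow F m, h1, h2, h3⟩, rfl⟩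

section Fam

variable (F : MaxFamily n S Γ V) (s : S)

/-- the period of a translation -/
noncomputable def per (γ : Γ) : V := F.ρ s γ 0

variable {F s}

theorem mul_apply' (γ δ : Γ) (v : V) : F.ρ s (γ * δ) v = F.ρ s γ (F.ρ s δ v) := by
  rw [map_mul]
  rfl

theorem one_apply' (v : V) : F.ρ s 1 v = v := by
  rw [map_one]
  rfl

theorem tr_apply {γ : Γ} (hγ : γ ∈ F.Λ) (v : V) : F.ρ s γ v = v + per F s γ :=
  (F.trans s γ).1 hγ v

theorem per_mul {γ : Γ} (hγ : γ ∈ F.Λ) (δ : Γ) :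
    per F s (γ * δ) = per F s δ + per F s γ := by
  rw [per, mul_apply', tr_apply hγ]
  rfl

theorem per_inv {γ : Γ} (hγ : γ ∈ F.Λ) : per F s γ⁻¹ = -per F s γ := by
  have h := per_mul (s := s) hγ γ⁻¹
  rw [mul_inv_cancel, per, one_apply'] at h
  exact eq_neg_of_add_eq_zero_left h.symm

theorem conj_apply' {κ : Γ} (hκ : κ ∈ F.Λ) (γ : Γ) (v : V) :
    F.ρ s (γ * κ * γ⁻¹) v = v + lin (F.ρ s γ) (per F s κ) := by
  rw [mul_apply', mul_apply', tr_apply hκ, add_lin, ← mul_apply', mul_inv_cancel, one_apply']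

theorem conj_mem {κ : Γ} (hκ : κ ∈ F.Λ) (γ : Γ) (s : S) : γ * κ * γ⁻¹ ∈ F.Λ := by
  rw [F.trans s]
  intro v
  rw [conj_apply' hκ, conj_apply' hκ, zero_add]

theorem per_conj {κ : Γ} (hκ : κ ∈ F.Λ) (γ : Γ) :
    per F s (γ * κ * γ⁻¹) = lin (F.ρ s γ) (per F s κ) := by
  rw [per, conj_apply' hκ, zero_add]

theorem T_mem {γ : Γ} (hγ : γ ∈ F.Λ) : F.T γ ∈ F.Λ := by
  have := F.Λ.mul_mem (F.triv γ) hγ
  rwa [inv_mul_cancel_right] at this

theorem lin_T (γ : Γ) (x : V) : lin (F.ρ s (F.T γ)) x = lin (F.ρ s γ) x := by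
  have e : ∀ v, F.ρ s (F.T γ) v = F.ρ s γ v + per F s (F.T γ * γ⁻¹) := by
    intro v
    rw [← tr_apply (F.triv γ), ← mul_apply', inv_mul_cancel_right]
  rw [lin_eq, lin_eq, e, e]
  abel

theorem per_N {γ : Γ} (hγ : γ ∈ F.Λ) :
    per F s (F.T γ * γ⁻¹) = per F s (F.T γ) - per F s γ := by
  rw [per_mul (T_mem hγ), per_inv hγ]
  abel

theorem E_inv (s : S) {γ δ : Γ} (hγ : γ ∈ F.Λ) (hδ : δ ∈ F.Λ) :
    F.E (F.T γ) (F.T δ) = F.E γ δ := by
  obtain ⟨g, hg⟩ := F.mono s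
  have key : ∀ κ ∈ F.Λ, F.ρ (F.σ s) κ 0 = lin g (per F s (F.T κ)) := by
    intro κ hκ
    rw [hg]
    change g (F.ρ s (F.T κ) (g⁻¹ 0)) = _
    rw [tr_apply (T_mem hκ), add_lin]
    have : g (g⁻¹ 0) = (0 : V) := by
      change (g * g⁻¹) 0 = (0 : V)
      rw [mul_inv_cancel]
      rfl
    rw [this, zero_add]
  rw [← F.pol (F.σ s) γ hγ δ hδ, ← F.pol s _ (T_mem hγ) _ (T_mem hδ), key γ hγ, key δ hδ, om, om,
    LinearIsometryEquiv.inner_map_map]
  rfl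

variable (F s)

/-- the generators of `W` -/
def gens : Set V := {x | ∃ γ ∈ F.Λ, x = F.ρ s (F.T γ * γ⁻¹) 0}

/-- the image of `T - 1` -/
noncomputable def WW : Submodule ℝ V := Submodule.span ℝ (gens F s)

variable {F s}

theorem om_gens {x y : V} (hx : x ∈ gens F s) (hy : y ∈ gens F s) : om x y = 0 := by
  obtain ⟨γ, hγ, rfl⟩ := hx
  obtain ⟨δ, hδ, rfl⟩ := hy
  set κ := F.T δ * δ⁻¹ with hκ
  have hκm : κ ∈ F.Λ := F.triv δ
  have hκT : F.T κ = κ := F.unip δ hδ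
  change om (per F s (F.T γ * γ⁻¹)) (per F s κ) = 0
  rw [per_N hγ, sub_eq_add_neg, ← neg_one_smul ℝ, om_add_left, om_smul_left]
  have h1 : om (per F s (F.T γ)) (per F s κ) = F.E (F.T γ) κ := F.pol s _ (T_mem hγ) _ hκm
  have h2 : om (per F s γ) (per F s κ) = F.E γ κ := F.pol s _ hγ _ hκm
  have h3 := E_inv s hγ hκm
  rw [hκT] at h3
  rw [h1, h2, h3]
  ring

theorem lag {x y : V} (hx : x ∈ WW F s) (hy : y ∈ WW F s) : om x y = 0 := by
  induction hx using Submodule.span_induction with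
  | mem x hx =>
    induction hy using Submodule.span_induction with
    | mem y hy => exact om_gens hx hy
    | zero => exact om_zero_right x
    | add y z _ _ h1 h2 => rw [om_add_right, h1, h2, add_zero]
    | smul c y _ h1 => rw [om_smul_right, h1, mul_zero]
  | zero => exact om_zero_left y
  | add x z _ _ h1 h2 => rw [om_add_left, h1, h2, add_zero]
  | smul c x _ h1 => rw [om_smul_left, h1, mul_zero]

theorem lin_gens (γ : Γ) {x : V} (hx : x ∈ gens F s) : lin (F.ρ s γ) x ∈ gens F s := by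
  obtain ⟨δ, hδ, rfl⟩ := hx
  refine ⟨γ * δ * γ⁻¹, conj_mem hδ γ s, ?_⟩
  change lin (F.ρ s γ) (per F s (F.T δ * δ⁻¹)) = per F s (F.T (γ * δ * γ⁻¹) * (γ * δ * γ⁻¹)⁻¹)
  rw [per_N (conj_mem hδ γ s), per_N hδ, map_mul, map_mul, map_inv, per_conj (T_mem hδ),
    per_conj hδ, lin_T, map_sub]

/-- the linear part over the real numbers -/
noncomputable def Al (F : MaxFamily n S Γ V) (s : S) (γ : Γ) : V →ₗ[ℝ] V :=
  ((lin (F.ρ s γ)).toLinearEquiv.toLinearMap).restrictScalars ℝ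

theorem Al_apply (γ : Γ) (x : V) : Al F s γ x = lin (F.ρ s γ) x := rfl

theorem inv_WW (γ : Γ) {x : V} (hx : x ∈ WW F s) : lin (F.ρ s γ) x ∈ WW F s := by
  have h : (WW F s).map (Al F s γ) ≤ WW F s := by
    rw [WW, Submodule.map_span, Submodule.span_le]
    rintro _ ⟨x, hx, rfl⟩
    exact Submodule.subset_span (lin_gens γ hx)
  exact h ⟨x, hx, rfl⟩

/-! ### The lattice -/

/-- the translations along `W` -/
def LL (F : MaxFamily n S Γ V) (s : S) : AddSubgroup (WW F s) where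
  carrier := {x | ∃ γ, ∀ v, F.ρ s γ v = v + x}
  zero_mem' := ⟨1, fun v => by rw [one_apply', Submodule.coe_zero, add_zero]⟩
  add_mem' := by
    rintro x y ⟨γ, hγ⟩ ⟨δ, hδ⟩
    exact ⟨γ * δ, fun v => by rw [mul_apply', hδ, hγ, Submodule.coe_add]; abel⟩
  neg_mem' := by
    rintro x ⟨γ, hγ⟩
    refine ⟨γ⁻¹, fun v => ?_⟩
    have h1 := hγ (v - x)
    rw [sub_add_cancel] at h1
    rw [← h1, ← mul_apply', inv_mul_cancel, one_apply', Submodule.coe_neg]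
    rw [h1]
    abel

theorem gens_mem {x : WW F s} (hx : (x : V) ∈ gens F s) : x ∈ LL F s := by
  obtain ⟨γ, hγ, hx⟩ := hx
  exact ⟨F.T γ * γ⁻¹, fun v => by rw [tr_apply (F.triv γ), hx]; rfl⟩

theorem finite_LL : {x : LL F s | ‖x‖ ≤ 1}.Finite := by
  have h1 := ((F.flat s).proper 0 1).image (fun γ => F.ρ s γ 0)
  have h2 : Set.InjOn (fun x : LL F s => ((x : WW F s) : V))
      ((fun x : LL F s => ((x : WW F s) : V)) ⁻¹' ((fun γ => F.ρ s γ 0) '' {γ | ‖F.ρ s γ 0‖ ≤ 1})) :=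
    fun x _ y _ hxy => Subtype.ext (Subtype.ext hxy)
  refine (h1.preimage h2).subset ?_
  rintro ⟨x, γ, hγ⟩ hx
  have h3 : F.ρ s γ 0 = (x : V) := by rw [hγ, zero_add]
  refine ⟨γ, ?_, h3⟩
  change ‖F.ρ s γ 0‖ ≤ 1
  rw [h3]
  exact hx

instance discrete_LL : DiscreteTopology (LL F s) := by
  apply discreteTopology_of_isOpen_singleton_zero
  have h1 : IsOpen {x : LL F s | ‖x‖ < 1} := isOpen_lt continuous_norm continuous_const
  have h2 : ({x : LL F s | ‖x‖ ≤ 1} \ {0}).Finite := finite_LL.subset Set.sdiff_subset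
  have h3 : ({0} : Set (LL F s)) = {x : LL F s | ‖x‖ < 1} \ ({x : LL F s | ‖x‖ ≤ 1} \ {0}) := by
    ext x
    constructor
    · intro hx
      rw [Set.mem_singleton_iff] at hx
      subst hx
      exact ⟨by simp, fun h => h.2 rfl⟩
    · rintro ⟨hx1, hx2⟩
      by_contra hx0
      have hx3 : ‖x‖ < 1 := hx1
      exact hx2 ⟨(show ‖x‖ ≤ 1 from hx3.le), hx0⟩
  rw [h3]
  exact h1.sdiff h2.isClosed

end Fam

end Pool.Agent.W2helper93.YZ
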